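import Mathlib

namespace Pool.Agent.Results.MP_5ab447_lc.AlphaLowerBound

open Finset

/-!
# The manipulability of the random `d`-ary single elimination bracket (RdSEB)

We prove `α_{d,k} ≥ 227/420` for all integers `3 ≤ k ≤ d`.

* `d ≥ 5`: one round (`h = 1`) and a coalition of two teams gives a gain of `1 - 2/d ≥ 3/5`.
* `d = 3` and `d = 4`: two rounds (`h = 2`) and a coalition `S = {0,1,2}`.  In `T` there are five
  special teams `0,1,2,3,4`; every special team beats every other (weak) team; `1` and `2` beat `0`,
  `1` beats `2`, `0` beats `3` and `4`, `3` and `4` beat `1` and `2`, and `4` beats `3`.  In `T'` the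
  matches of `0` against `1` and `2` are reversed, so that `0` is a Condorcet winner.  The gain is
  exactly `227/420` for `d = 3` and `15/26` for `d = 4`.

The winning probability of the coalition in `T` is computed exactly: the average over all seedings
reduces to an average over the groups in which the five special teams lie, which the kernel
evaluates.
-/

/-- A tournament on the set `N` of teams: a complete oriented graph, `beats x y` meaning that
`x` beats `y`. -/
structure Tournament (N : Type) where
  beats : N → N → Prop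
  irrefl : ∀ x, ¬ beats x x
  oriented : ∀ x y, x ≠ y → (beats x y ↔ ¬ beats y x)

/-- `x` is a Condorcet winner of the set `X` of teams: it is in `X` and beats every other team
of `X`. -/
def IsCondorcet {N : Type} (T : Tournament N) (X : Set N) (x : N) : Prop :=
  x ∈ X ∧ ∀ y ∈ X, y ≠ x → T.beats x y

/-- The leaves of the complete `d`-ary tree of height `h`: the tree of height `0` has one leaf, and a
leaf of the tree of height `h + 1` is a leaf `l` of the `i`-th subtree of the root, written
`(i, l)`. -/
def Leaf (d : ℕ) : ℕ → Type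
  | 0 => Unit
  | h + 1 => Fin d × Leaf d h

/-- The inner nodes of the complete `d`-ary tree of height `h`: the tree of height `0` has none, and
an inner node of the tree of height `h + 1` is either its root, written `none`, or an inner node `v`
of the `i`-th subtree of the root, written `some (i, v)`. -/
def Inner (d : ℕ) : ℕ → Type
  | 0 => Empty
  | h + 1 => Option (Fin d × Inner d h)

instance instFintypeLeaf (d : ℕ) : (h : ℕ) → Fintype (Leaf d h)
  | 0 => inferInstanceAs (Fintype Unit)
  | h + 1 => by
      haveI := instFintypeLeaf d h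
      exact inferInstanceAs (Fintype (Fin d × Leaf d h))

instance instDecEqLeaf (d : ℕ) : (h : ℕ) → DecidableEq (Leaf d h)
  | 0 => inferInstanceAs (DecidableEq Unit)
  | h + 1 => by
      haveI := instDecEqLeaf d h
      exact inferInstanceAs (DecidableEq (Fin d × Leaf d h))

instance instFintypeInner (d : ℕ) : (h : ℕ) → Fintype (Inner d h)
  | 0 => inferInstanceAs (Fintype Empty)
  | h + 1 => by
      haveI := instFintypeInner d h
      exact inferInstanceAs (Fintype (Option (Fin d × Inner d h)))

instance instDecEqInner (d : ℕ) : (h : ℕ) → DecidableEq (Inner d h)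
  | 0 => inferInstanceAs (DecidableEq Empty)
  | h + 1 => by
      haveI := instDecEqInner d h
      exact inferInstanceAs (DecidableEq (Option (Fin d × Inner d h)))

open Classical in
/-- The label of an inner node whose children carry the labels `c i`, and whose mark is `m`: the
Condorcet winner of the set of the labels of the children if there is one, and otherwise the label
of the child number `m`. -/
noncomputable def nodeLabel {N : Type} {d : ℕ} (T : Tournament N) (c : Fin d → N) (m : Fin d) : N :=
  if h : ∃ x, IsCondorcet T (Set.range c) x then h.choose else c m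

/-- The label of the root of the complete `d`-ary tree of height `h` when the leaf `l` carries the
team `σ l` and the inner node `v` has the mark `μ v`. -/
noncomputable def rootLabel {N : Type} (T : Tournament N) (d : ℕ) :
    (h : ℕ) → (Leaf d h → N) → (Inner d h → Fin d) → N
  | 0, σ, _ => σ ()
  | h + 1, σ, μ =>
      nodeLabel T
        (fun i => rootLabel T d h (fun l => σ (i, l)) (fun v => μ (some (i, v))))
        (μ none)

open Classical in
/-- `r^d_x(T)`: the probability that team `x` wins the random `d`-ary single elimination bracket on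
`d ^ h` teams, that is, the proportion of the pairs (bijection between leaves and teams, marks of the
inner nodes) for which the root has the label `x`. -/
noncomputable def winProb (d h : ℕ) (T : Tournament (Fin (d ^ h))) (x : Fin (d ^ h)) : ℝ :=
  (Fintype.card {p : (Leaf d h ≃ Fin (d ^ h)) × (Inner d h → Fin d) //
      rootLabel T d h p.1 p.2 = x} : ℝ) /
    (Fintype.card ((Leaf d h ≃ Fin (d ^ h)) × (Inner d h → Fin d)) : ℝ)

/-- `r^d_S(T)`: the sum of `r^d_x(T)` over `x ∈ S`. -/
noncomputable def winProbSet (d h : ℕ) (T : Tournament (Fin (d ^ h)))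
    (S : Finset (Fin (d ^ h))) : ℝ :=
  ∑ x ∈ S, winProb d h T x

/-- `S`-adjacent tournaments: they agree on every match except possibly the matches between two
members of `S`. -/
def Adjacent {N : Type} (S : Finset N) (T T' : Tournament N) : Prop :=
  ∀ x y, ¬ (x ∈ S ∧ y ∈ S) → (T.beats x y ↔ T'.beats x y)

/-- `α_{d,k}`: the supremum of `r^d_S(T') - r^d_S(T)` over `h ≥ 1`, tournaments `T` on `d ^ h`
teams, sets `S` of at most `k` teams, and tournaments `T'` that are `S`-adjacent to `T`. -/
noncomputable def alpha (d k : ℕ) : ℝ :=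
  sSup {g : ℝ | ∃ h : ℕ, 1 ≤ h ∧ ∃ (T T' : Tournament (Fin (d ^ h))) (S : Finset (Fin (d ^ h))),
    S.card ≤ k ∧ Adjacent S T T' ∧ g = winProbSet d h T' S - winProbSet d h T S}


/-- averaging over all equivalences = averaging over all placements of the specials -/
lemma sum_equiv_eq {N P : Type} [Fintype N] [DecidableEq N] [Fintype P] [DecidableEq P]
    {k : ℕ} (ι : Fin k ↪ N) (e0 : N ≃ P) :
    ∃ c : ℕ, 0 < c ∧ ∀ Φ : (Fin k ↪ P) → ℕ,
      ∑ τ : N ≃ P, Φ (ι.trans τ.toEmbedding) = c * ∑ p, Φ p := by
  classical
  set f : (N ≃ P) → (Fin k ↪ P) := fun τ => ι.trans τ.toEmbedding with hf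
  have key : ∀ p q : Fin k ↪ P,
      (univ.filter (fun τ => f τ = p)).card = (univ.filter (fun τ => f τ = q)).card := by
    intro p q
    obtain ⟨π, hπ⟩ := Equiv.Perm.exists_extending_pair p q p.injective q.injective
    refine Finset.card_bij' (fun τ _ => τ.trans π) (fun τ _ => τ.trans π.symm) ?_ ?_ ?_ ?_
    · intro τ hτ
      simp only [mem_filter, mem_univ, true_and, hf] at hτ ⊢
      ext i
      have := congrArg (fun (g : Fin k ↪ P) => g i) hτ
      simp at this ⊢
      rw [this, hπ]
    · intro τ hτ
      simp only [mem_filter, mem_univ, true_and, hf] at hτ ⊢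
      ext i
      have := congrArg (fun (g : Fin k ↪ P) => g i) hτ
      simp at this ⊢
      rw [this, Equiv.symm_apply_eq]
      exact (hπ i).symm
    · intro τ _
      ext; simp
    · intro τ _
      ext; simp
  refine ⟨(univ.filter (fun τ => f τ = f e0)).card, ?_, ?_⟩
  · apply Finset.card_pos.mpr
    exact ⟨e0, by simp⟩
  · intro Φ
    have h1 : ∑ τ : N ≃ P, Φ (f τ) = ∑ p, ∑ τ ∈ univ.filter (fun τ => f τ = p), Φ (f τ) := by
      rw [Finset.sum_fiberwise]
    rw [h1, Finset.mul_sum]
    apply Finset.sum_congr rfl
    intro p _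
    rw [Finset.sum_congr rfl (g := fun _ => Φ p)]
    · rw [Finset.sum_const, smul_eq_mul, key p (f e0)]
    · intro τ hτ
      simp at hτ
      rw [hτ]

/-- number of `s` making `(g,s)` injective -/
def W {d : ℕ} : (k : ℕ) → (Fin k → Fin d) → ℕ
  | 0, _ => 1
  | k + 1, g =>
      (d - (univ.filter (fun j : Fin k => g j.succ = g 0)).card) *
        W k (fun j => g j.succ)

lemma card_inj {d : ℕ} (k : ℕ) (g : Fin k → Fin d) :
    (univ.filter (fun s : Fin k → Fin d => Function.Injective (fun i => (g i, s i)))).card
      = W k g := by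
  classical
  induction k with
  | zero =>
    simp only [W]
    rw [Finset.card_eq_one]
    refine ⟨Fin.elim0, ?_⟩
    ext s
    simp only [mem_filter, mem_univ, true_and, mem_singleton]
    constructor
    · intro _
      exact Subsingleton.elim _ _
    · intro _
      exact fun i => i.elim0
  | succ k ih =>
    simp only [W]
    rw [← ih (fun j => g j.succ)]
    have hmap : ∀ s ∈ (univ.filter (fun s : Fin (k+1) → Fin d =>
        Function.Injective (fun i => (g i, s i)))),
        (fun j : Fin k => s j.succ) ∈ (univ.filter (fun s : Fin k → Fin d =>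
          Function.Injective (fun i => (g i.succ, s i)))) := by
      intro s hs
      simp only [mem_filter, mem_univ, true_and] at hs ⊢
      intro i j hij
      have := @hs i.succ j.succ (by simpa using hij)
      exact Fin.succ_injective _ this
    rw [Finset.card_eq_sum_card_fiberwise hmap]
    rw [Finset.sum_congr rfl (g := fun _ =>
      d - (univ.filter (fun j : Fin k => g j.succ = g 0)).card)]
    · rw [Finset.sum_const, smul_eq_mul, mul_comm]
    · intro s' hs'
      simp only [mem_filter, mem_univ, true_and] at hs'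
      set used : Finset (Fin d) :=
        (univ.filter (fun j : Fin k => g j.succ = g 0)).image s' with hused
      have hcard : used.card
          = (univ.filter (fun j : Fin k => g j.succ = g 0)).card := by
        apply Finset.card_image_of_injOn
        intro i hi j hj hij
        simp only [coe_filter, mem_univ, true_and, Set.mem_ofPred_eq] at hi hj
        apply hs'
        simp only [Prod.mk.injEq]
        exact ⟨by rw [hi, hj], hij⟩
      rw [← hcard]
      have : (univ \ used).card = d - used.card := by
        rw [Finset.card_sdiff_of_subset (Finset.subset_univ _)]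
        simp
      rw [← this]
      refine Finset.card_bij' (fun s _ => s 0) (fun x _ => Fin.cons x s') ?_ ?_ ?_ ?_
      · intro s hs
        simp only [mem_filter, mem_univ, true_and] at hs
        simp only [hused, mem_sdiff, mem_univ, true_and, mem_image, mem_filter, not_exists,
          not_and]
        intro j hj hsj
        have h1 : s j.succ = s' j := by rw [← hs.2]
        have := hs.1 (a₁ := j.succ) (a₂ := 0) (by
          simp only [Prod.mk.injEq]
          exact ⟨hj, by rw [h1, hsj]⟩)
        exact absurd this (Fin.succ_ne_zero j)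
      · intro x hx
        simp only [hused, mem_sdiff, mem_univ, true_and, mem_image, mem_filter, not_exists,
          not_and] at hx
        simp only [mem_filter, mem_univ, true_and]
        constructor
        · intro i j hij
          simp only [Prod.mk.injEq] at hij
          rcases Fin.eq_zero_or_eq_succ i with rfl | ⟨i', rfl⟩ <;>
          rcases Fin.eq_zero_or_eq_succ j with rfl | ⟨j', rfl⟩
          · rfl
          · simp only [Fin.cons_zero, Fin.cons_succ] at hij
            exact absurd hij.2.symm (hx j' hij.1.symm)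
          · simp only [Fin.cons_zero, Fin.cons_succ] at hij
            exact absurd hij.2 (hx i' hij.1)
          · simp only [Fin.cons_succ] at hij
            have := @hs' i' j' (by simp only [Prod.mk.injEq]; exact hij)
            rw [this]
        · ext j
          simp
      · intro s hs
        simp only [mem_filter, mem_univ, true_and] at hs
        ext j
        rcases Fin.eq_zero_or_eq_succ j with rfl | ⟨j', rfl⟩
        · simp
        · simp [← hs.2]
      · intro x hx
        simp

/-- sum over embeddings into `Fin d × Fin d` of a function of the first coordinates -/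
lemma sum_emb {d k : ℕ} (Φ : (Fin k → Fin d) → ℕ) :
    ∑ p : Fin k ↪ Fin d × Fin d, Φ (fun i => (p i).1) = ∑ g : Fin k → Fin d, W k g * Φ g := by
  classical
  have h1 : ∑ p : Fin k ↪ Fin d × Fin d, Φ (fun i => (p i).1)
      = ∑ g : Fin k → Fin d, ∑ p ∈ univ.filter (fun p : Fin k ↪ Fin d × Fin d =>
          (fun i => (p i).1) = g), Φ (fun i => (p i).1) := by
    rw [Finset.sum_fiberwise]
  rw [h1]
  apply Finset.sum_congr rfl
  intro g _
  rw [Finset.sum_congr rfl (g := fun _ => Φ g)]
  · rw [Finset.sum_const, smul_eq_mul, ← card_inj]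
    congr 1
    refine Finset.card_bij' (fun p _ => fun i => (p i).2)
      (fun s hs => ⟨fun i => (g i, s i), by simpa using hs⟩) ?_ ?_ ?_ ?_
    · intro p hp
      simp only [mem_filter, mem_univ, true_and] at hp ⊢
      have : (fun i => (g i, (p i).2)) = p := by
        ext i
        · simp [← hp]
        · rfl
      rw [this]
      exact p.injective
    · intro s hs
      simp
    · intro p hp
      simp only [mem_filter, mem_univ, true_and] at hp
      ext i
      · simp [← hp]
      · rfl
    · intro s hs
      ext; simp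
  · intro p hp
    simp only [mem_filter, mem_univ, true_and] at hp
    rw [hp]


def tb : ℕ → ℕ → Bool
  | 1, 0 => true
  | 2, 0 => true
  | 1, 2 => true
  | 0, 3 => true
  | 0, 4 => true
  | 3, 1 => true
  | 3, 2 => true
  | 4, 1 => true
  | 4, 2 => true
  | 4, 3 => true
  | _, _ => false

def bt (x y : ℕ) : Bool := if 5 ≤ x then decide (x < y) else (decide (5 ≤ y) || tb x y)

def domTest (l : List ℕ) (x : ℕ) : Bool := (Nat.blt x 5) && l.all (fun y => Nat.beq y x || bt x y)

def domL (l : List ℕ) : Option ℕ := l.find? (domTest l)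

def pmul : ℕ → ℕ → ℕ
  | 0, _ => 0
  | (n + 1), b => (n + 1) * b

/-- sum over `v < k` -/
def sumR : ℕ → (ℕ → ℕ) → ℕ
  | 0, _ => 0
  | (k + 1), f => sumR k f + f k

def cnt (d : ℕ) (X : List ℕ) (v : ℕ) : ℕ :=
  match domL X with
  | some x => if Nat.beq v x then d else 0
  | none => if Nat.beq v 5 then d - X.length else if X.elem v then 1 else 0

def sumY (d : ℕ) : List (List ℕ) → (List ℕ → ℕ) → ℕ
  | [], G => G []
  | X :: L, G => sumR 6 (fun v => pmul (cnt d X v) (sumY d L (fun l => G (v :: l))))

def psi (l : List ℕ) : ℕ :=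
  match domL l with
  | some x => if Nat.blt x 3 then l.length else 0
  | none => l.countP (fun x => Nat.blt x 3)

def Wl (d : ℕ) : List ℕ → ℕ
  | [] => 1
  | a :: l => (d - l.countP (fun b => Nat.beq b a)) * Wl d l

def specials (g : List ℕ) (i : ℕ) : List ℕ :=
  (List.range 5).filter (fun s => Nat.beq (g.getD s 0) i)

def sumG (d : ℕ) : ℕ → (List ℕ → ℕ) → ℕ
  | 0, F => F []
  | (k + 1), F => sumR d (fun a => sumG d k (fun l => F (a :: l)))

def total (d : ℕ) : ℕ :=
  sumG d 5 (fun g => pmul (Wl d g) (sumY d ((List.range d).map (specials g)) psi))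

lemma pmul_eq (a b : ℕ) : pmul a b = a * b := by
  cases a <;> simp [pmul]

lemma sumR_eq (k : ℕ) (f : ℕ → ℕ) : sumR k f = ∑ v ∈ range k, f v := by
  induction k with
  | zero => rfl
  | succ k ih => rw [Finset.sum_range_succ, ← ih]; rfl

lemma sumR_eq' (k : ℕ) (f : ℕ → ℕ) : sumR k f = ∑ v : Fin k, f v := by
  rw [sumR_eq, Finset.sum_range]

lemma sumG_eq (d k : ℕ) (F : List ℕ → ℕ) :
    sumG d k F = ∑ g : Fin k → Fin d, F (List.ofFn (fun i => (g i : ℕ))) := by
  induction k generalizing F with
  | zero => simp [sumG]
  | succ k ih =>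
    simp only [sumG]
    rw [sumR_eq', ← (Fin.consEquiv (fun _ => Fin d)).sum_comp, Fintype.sum_prod_type]
    apply Finset.sum_congr rfl
    intro a _
    rw [ih]
    apply Finset.sum_congr rfl
    intro g _
    simp [Fin.consEquiv, List.ofFn_succ]

lemma countP_ofFn {k : ℕ} (f : Fin k → ℕ) (p : ℕ → Bool) :
    (List.ofFn f).countP p = (univ.filter (fun i => p (f i) = true)).card := by
  induction k with
  | zero => simp
  | succ k ih =>
    rw [List.ofFn_succ, List.countP_cons, ih, Finset.card_filter, Finset.card_filter,
      Fin.sum_univ_succ]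
    ring

lemma sumY_eq (d k : ℕ) (φ : Fin k → Fin d → ℕ) (X : Fin k → List ℕ) (hφ : ∀ i a, φ i a < 6)
    (h : ∀ i v, v < 6 → (univ.filter (fun a => φ i a = v)).card = cnt d (X i) v)
    (G : List ℕ → ℕ) :
    ∑ m : Fin k → Fin d, G (List.ofFn (fun i => φ i (m i))) = sumY d (List.ofFn X) G := by
  induction k generalizing G with
  | zero => simp [sumY]
  | succ k ih =>
    rw [List.ofFn_succ]
    simp only [sumY]
    rw [← (Fin.consEquiv (fun _ => Fin d)).sum_comp, Fintype.sum_prod_type]
    have h1 : ∀ a : Fin d, ∑ m : Fin k → Fin d,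
        G (List.ofFn fun i => φ i ((Fin.consEquiv (fun _ => Fin d)) (a, m) i))
        = sumY d (List.ofFn fun i => X i.succ) (fun l => G (φ 0 a :: l)) := by
      intro a
      rw [← ih (fun i => φ i.succ) (fun i => X i.succ) (fun i a => hφ _ _)
        (fun i v hv => h _ v hv)]
      apply Finset.sum_congr rfl
      intro m _
      simp [Fin.consEquiv, List.ofFn_succ]
    rw [Finset.sum_congr rfl (fun a _ => h1 a)]
    rw [sumR_eq, ← Finset.sum_fiberwise_of_maps_to (s := univ) (t := range 6)
      (g := fun a => φ 0 a) (fun a _ => Finset.mem_range.mpr (hφ 0 a))]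
    apply Finset.sum_congr rfl
    intro v hv
    rw [pmul_eq, ← h 0 v (Finset.mem_range.mp hv), Finset.sum_congr rfl
      (g := fun _ => sumY d (List.ofFn fun i => X i.succ) (fun l => G (v :: l)))]
    · rw [Finset.sum_const, smul_eq_mul]
    · intro a ha
      simp only [mem_filter, mem_univ, true_and] at ha
      rw [ha]

lemma bt_weak {x y : ℕ} (hx : x < 5) (hy : 5 ≤ y) : bt x y = true := by
  unfold bt
  rw [if_neg (by omega)]
  simp [hy]

lemma bt_antisymm (x y : ℕ) (hxy : x ≠ y) : bt x y = true ↔ ¬ bt y x = true := by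
  unfold bt
  by_cases hx : 5 ≤ x <;> by_cases hy : 5 ≤ y
  · simp [hx, hy]; omega
  · simp [hx, hy]; omega
  · simp [hx, hy]; omega
  · have hx' : x < 5 := by omega
    have hy' : y < 5 := by omega
    simp only [hx, hy, if_false, decide_false, Bool.false_or]
    interval_cases x <;> interval_cases y <;> simp_all [tb]

lemma domTest_iff (l : List ℕ) (x : ℕ) :
    domTest l x = true ↔ x < 5 ∧ ∀ y ∈ l, y = x ∨ bt x y = true := by
  simp [domTest, List.all_eq_true, Nat.blt_eq]

lemma domL_eq_some_iff (l : List ℕ) (x : ℕ) :
    domL l = some x ↔ x ∈ l ∧ x < 5 ∧ ∀ y ∈ l, y = x ∨ bt x y = true := by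
  constructor
  · intro h
    exact ⟨List.mem_of_find?_eq_some h, (domTest_iff l x).mp (List.find?_some h)⟩
  · rintro ⟨h1, h2⟩
    have h3 := (domTest_iff l x).mpr h2
    cases h4 : domL l with
    | none =>
      have := List.find?_eq_none.mp h4 x h1
      exact absurd h3 this
    | some x' =>
      have h5 : x' ∈ l := List.mem_of_find?_eq_some h4
      have h6 := (domTest_iff l x').mp (List.find?_some h4)
      congr 1
      by_contra hne
      rcases h6.2 x h1 with h7 | h7
      · exact hne h7.symm
      · rcases h2.2 x' h5 with h8 | h8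
        · exact hne h8
        · exact (bt_antisymm x x' (Ne.symm hne)).mp h8 h7

lemma domL_eq_none_iff (l : List ℕ) :
    domL l = none ↔ ∀ x ∈ l, ¬ (x < 5 ∧ ∀ y ∈ l, y = x ∨ bt x y = true) := by
  constructor
  · intro h x hx h2
    have := (domL_eq_some_iff l x).mpr ⟨hx, h2⟩
    rw [h] at this
    exact absurd this (by simp)
  · intro h
    cases h4 : domL l with
    | none => rfl
    | some x =>
      have := (domL_eq_some_iff l x).mp h4
      exact absurd this.2 (h x this.1)

/-- class-level label -/
def nodeC {d : ℕ} (c : Fin d → ℕ) (m : Fin d) : ℕ :=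
  match domL (List.ofFn c) with
  | some x => x
  | none => c m

lemma psi_eq {d : ℕ} (y : Fin d → ℕ) :
    (univ.filter (fun m => nodeC y m < 3)).card = psi (List.ofFn y) := by
  unfold psi nodeC
  cases h : domL (List.ofFn y) with
  | none =>
    simp only
    rw [countP_ofFn]
    congr 1
    ext i
    simp [Nat.blt_eq]
  | some x =>
    simp only [Nat.blt_eq]
    split_ifs with h1
    · simp [h1]
    · simp [h1]


lemma W_eq {d : ℕ} (k : ℕ) (g : Fin k → Fin d) :
    W k g = Wl d (List.ofFn (fun i => (g i : ℕ))) := by
  induction k with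
  | zero => simp [W, Wl]
  | succ k ih =>
    rw [List.ofFn_succ]
    simp only [W, Wl]
    rw [ih, countP_ofFn]
    congr 3
    ext j
    simp [Nat.beq_eq, Fin.ext_iff]

/-- the class of a team: specials `0,...,4` keep their number, all others are `5` -/
def kap {n : ℕ} (x : Fin n) : ℕ := min x.val 5

lemma kap_lt_six {n : ℕ} (x : Fin n) : kap x < 6 := by
  unfold kap; omega

lemma kap_eq_of_lt {n : ℕ} (x : Fin n) (h : kap x < 5) : kap x = x.val := by
  unfold kap at *; omega

/-- the tournament `T` -/
def tourT (n : ℕ) : Tournament (Fin n) where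
  beats x y := bt x y = true
  irrefl x := by
    unfold bt
    by_cases hx : 5 ≤ x.val
    · simp [hx]
    · have hx' : x.val < 5 := by omega
      simp only [hx, if_false, decide_false, Bool.false_or]
      interval_cases x.val <;> simp [tb]
  oriented x y hxy := bt_antisymm x y (fun h => hxy (Fin.ext h))

/-- the same tournament, except that team `0` now beats everyone -/
def mkTop {n : ℕ} (T : Tournament (Fin n)) : Tournament (Fin n) where
  beats x y := (x.val = 0 ∧ y.val ≠ 0) ∨ (x.val ≠ 0 ∧ y.val ≠ 0 ∧ T.beats x y)
  irrefl x := by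
    have := T.irrefl x
    tauto
  oriented x y hxy := by
    have h := T.oriented x y hxy
    have h2 : x.val ≠ y.val := fun h => hxy (Fin.ext h)
    by_cases hx : x.val = 0 <;> by_cases hy : y.val = 0
    · omega
    · simp [hx, hy]
    · simp [hx, hy]
    · simp [hx, hy, h]

lemma isCondorcet_unique {N : Type} (T : Tournament N) (X : Set N) {x y : N}
    (hx : IsCondorcet T X x) (hy : IsCondorcet T X y) : x = y := by
  by_contra hne
  have h1 := hx.2 y hy.1 (Ne.symm hne)
  have h2 := hy.2 x hx.1 hne
  exact (T.oriented x y hne).mp h1 h2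

lemma nodeLabel_of_condorcet {N : Type} {d : ℕ} (T : Tournament N) (c : Fin d → N) (m : Fin d)
    {x : N} (hx : IsCondorcet T (Set.range c) x) : nodeLabel T c m = x := by
  unfold nodeLabel
  have h : ∃ x, IsCondorcet T (Set.range c) x := ⟨x, hx⟩
  rw [dif_pos h]
  exact isCondorcet_unique T _ h.choose_spec hx

lemma nodeLabel_of_not {N : Type} {d : ℕ} (T : Tournament N) (c : Fin d → N) (m : Fin d)
    (h : ¬ ∃ x, IsCondorcet T (Set.range c) x) : nodeLabel T c m = c m := by
  unfold nodeLabel
  rw [dif_neg h]

lemma nodeLabel_mem {N : Type} {d : ℕ} (T : Tournament N) (c : Fin d → N) (m : Fin d) :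
    nodeLabel T c m ∈ Set.range c := by
  by_cases h : ∃ x, IsCondorcet T (Set.range c) x
  · obtain ⟨x, hx⟩ := h
    rw [nodeLabel_of_condorcet T c m hx]
    exact hx.1
  · rw [nodeLabel_of_not T c m h]
    exact ⟨m, rfl⟩

/-- class of the label = class-level label -/
lemma kap_nodeLabel {n d : ℕ} (c : Fin d → Fin n) (m : Fin d) :
    kap (nodeLabel (tourT n) c m) = nodeC (fun i => kap (c i)) m := by
  unfold nodeC
  cases h : domL (List.ofFn fun i => kap (c i)) with
  | some x =>
    simp only
    rw [domL_eq_some_iff] at h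
    obtain ⟨h1, h2, h3⟩ := h
    rw [List.mem_ofFn] at h1
    obtain ⟨i, hi⟩ := h1
    have hi' : (c i).val = x := by
      rw [← hi]; exact (kap_eq_of_lt _ (by omega)).symm
    have : IsCondorcet (tourT n) (Set.range c) (c i) := by
      refine ⟨⟨i, rfl⟩, ?_⟩
      rintro y ⟨j, rfl⟩ hne
      have hj := h3 (kap (c j)) (by rw [List.mem_ofFn]; exact ⟨j, rfl⟩)
      simp only [tourT]
      rcases hj with hj | hj
      · exfalso
        apply hne
        apply Fin.ext
        rw [← kap_eq_of_lt (c j) (by omega), hj, hi']
      · rw [hi']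
        by_cases h5 : kap (c j) < 5
        · rw [← kap_eq_of_lt _ h5]; exact hj
        · have : 5 ≤ (c j).val := by unfold kap at h5; omega
          exact bt_weak h2 this
    rw [nodeLabel_of_condorcet _ _ _ this, hi]
  | none =>
    simp only
    rw [domL_eq_none_iff] at h
    by_cases hw : ∃ x, IsCondorcet (tourT n) (Set.range c) x
    · obtain ⟨w, hw⟩ := hw
      rw [nodeLabel_of_condorcet _ _ _ hw]
      obtain ⟨i, hi⟩ := hw.1
      by_cases hw5 : w.val < 5
      · exfalso
        have hkw : kap w = w.val := by unfold kap; omega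
        apply h (kap w) (by rw [List.mem_ofFn]; exact ⟨i, by rw [hi]⟩)
        refine ⟨by omega, ?_⟩
        intro y hy
        rw [List.mem_ofFn] at hy
        obtain ⟨j, rfl⟩ := hy
        by_cases hj : c j = w
        · left; rw [hj]
        · right
          have := hw.2 (c j) ⟨j, rfl⟩ hj
          simp only [tourT] at this
          rw [hkw]
          by_cases h5 : kap (c j) < 5
          · rw [kap_eq_of_lt _ h5]; exact this
          · exact bt_weak hw5 (by omega)
      · -- all are weak
        have hall : ∀ j, kap (c j) = 5 := by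
          intro j
          by_cases hj : c j = w
          · rw [hj]; unfold kap; omega
          · have := hw.2 (c j) ⟨j, rfl⟩ hj
            simp only [tourT, bt] at this
            have h5 : 5 ≤ w.val := by omega
            simp [h5] at this
            have : w.val < (c j).val := this
            unfold kap; omega
        rw [hall m, ← hi, hall i]
    · rw [nodeLabel_of_not _ _ _ hw]

section group

variable {n d : ℕ}

/-- the `s`-th special team -/
def spec (h5 : 5 ≤ n) : Fin 5 ↪ Fin n := ⟨fun s => ⟨s.val, by omega⟩, by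
  intro a b hab
  simp only [Fin.mk.injEq] at hab
  exact Fin.ext hab⟩

lemma mem_specials (g : Fin 5 → Fin d) (i : Fin d) (v : ℕ) :
    v ∈ specials (List.ofFn (fun s => (g s : ℕ))) i.val ↔ ∃ h : v < 5, g ⟨v, h⟩ = i := by
  unfold specials
  simp only [List.mem_filter, List.mem_range, Nat.beq_eq]
  constructor
  · rintro ⟨h1, h2⟩
    refine ⟨h1, ?_⟩
    apply Fin.ext
    rw [← h2, List.getD_eq_getElem _ _ (by simpa using h1), List.getElem_ofFn]
  · rintro ⟨h1, h2⟩
    refine ⟨h1, ?_⟩
    rw [← h2, List.getD_eq_getElem _ _ (by simpa using h1), List.getElem_ofFn]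

lemma mem_classes (h5 : 5 ≤ n) (σ : Fin d × Fin d ≃ Fin n) (i : Fin d) (v : ℕ) (hv : v < 5) :
    v ∈ List.ofFn (fun j => kap (σ (i, j))) ↔
      v ∈ specials (List.ofFn (fun s => ((σ.symm (spec h5 s)).1 : ℕ))) i.val := by
  rw [mem_specials, List.mem_ofFn]
  constructor
  · rintro ⟨j, hj⟩
    refine ⟨hv, ?_⟩
    have : spec h5 ⟨v, hv⟩ = σ (i, j) := by
      apply Fin.ext
      rw [← kap_eq_of_lt _ (by omega : kap (σ (i, j)) < 5), hj]
      rfl
    rw [this]; simp
  · rintro ⟨_, h⟩
    refine ⟨(σ.symm (spec h5 ⟨v, hv⟩)).2, ?_⟩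
    have : (i, (σ.symm (spec h5 ⟨v, hv⟩)).2) = σ.symm (spec h5 ⟨v, hv⟩) := by
      rw [← h]
    rw [this, Equiv.apply_symm_apply]
    have : (spec h5 ⟨v, hv⟩).val = v := rfl
    unfold kap; omega

lemma card_special (h5 : 5 ≤ n) (σ : Fin d × Fin d ≃ Fin n) (i : Fin d) (v : ℕ) (hv : v < 5) :
    (univ.filter (fun j => kap (σ (i, j)) = v)).card =
      if v ∈ specials (List.ofFn (fun s => ((σ.symm (spec h5 s)).1 : ℕ))) i.val then 1 else 0 := by
  split_ifs with h
  · rw [← mem_classes h5 σ i v hv, List.mem_ofFn] at h
    obtain ⟨j, hj⟩ := h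
    rw [Finset.card_eq_one]
    refine ⟨j, ?_⟩
    ext j'
    simp only [mem_filter, mem_univ, true_and, mem_singleton]
    constructor
    · intro hj'
      have h1 := kap_eq_of_lt (σ (i, j')) (by omega)
      have h2 := kap_eq_of_lt (σ (i, j)) (by omega)
      have : σ (i, j') = σ (i, j) := Fin.ext (by omega)
      have := σ.injective this
      simpa using this
    · rintro rfl; exact hj
  · rw [Finset.card_eq_zero]
    rw [← mem_classes h5 σ i v hv, List.mem_ofFn] at h
    ext j'
    simp only [mem_filter, mem_univ, true_and, notMem_empty, iff_false]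
    intro hj'
    exact h ⟨j', hj'⟩

lemma card_group (h5 : 5 ≤ n) (σ : Fin d × Fin d ≃ Fin n) (i : Fin d) (v : ℕ) (hv : v < 6) :
    (univ.filter (fun m => nodeC (fun j => kap (σ (i, j))) m = v)).card =
      cnt d (specials (List.ofFn (fun s => ((σ.symm (spec h5 s)).1 : ℕ))) i.val) v := by
  set X := specials (List.ofFn (fun s => ((σ.symm (spec h5 s)).1 : ℕ))) i.val with hX
  have hlt : ∀ v ∈ X, v < 5 := by
    intro v hv
    rw [hX, mem_specials] at hv
    exact hv.1
  have hdom : domL (List.ofFn (fun j => kap (σ (i, j)))) = domL X := by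
    apply Option.ext
    intro x
    rw [domL_eq_some_iff, domL_eq_some_iff]
    constructor
    · rintro ⟨h1, h2, h3⟩
      refine ⟨(mem_classes h5 σ i x h2).mp h1, h2, ?_⟩
      intro y hy
      exact h3 y ((mem_classes h5 σ i y (hlt y hy)).mpr hy)
    · rintro ⟨h1, h2, h3⟩
      refine ⟨(mem_classes h5 σ i x h2).mpr h1, h2, ?_⟩
      intro y hy
      by_cases hy5 : y < 5
      · exact h3 y ((mem_classes h5 σ i y hy5).mp hy)
      · right
        exact bt_weak h2 (by omega)
  unfold nodeC cnt
  rw [hdom]
  cases h : domL X with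
  | some x =>
    simp only
    by_cases hvx : v = x
    · subst hvx; simp
    · simp [hvx, Nat.beq_eq, Ne.symm hvx]
  | none =>
    simp only
    by_cases hv5 : v = 5
    · subst hv5
      rw [if_pos (by simp)]
      -- count of the weak teams in the group
      have htot : ∑ v ∈ range 6, (univ.filter (fun j => kap (σ (i, j)) = v)).card = d := by
        rw [← Finset.card_eq_sum_card_fiberwise (s := univ) (t := range 6)
          (f := fun j => kap (σ (i, j))) (fun j _ => by
            simp only [coe_range, Set.mem_Iio]
            exact kap_lt_six _)]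
        simp
      rw [Finset.sum_range_succ] at htot
      have hsum : ∑ v ∈ range 5, (univ.filter (fun j => kap (σ (i, j)) = v)).card = X.length := by
        rw [Finset.sum_congr rfl (fun v hv => card_special h5 σ i v (Finset.mem_range.mp hv))]
        rw [← Finset.card_filter]
        have hnd : X.Nodup := by
          rw [hX]; unfold specials
          exact List.Nodup.filter _ List.nodup_range
        rw [← List.toFinset_card_of_nodup hnd]
        congr 1
        ext v
        simp only [mem_filter, Finset.mem_range, List.mem_toFinset]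
        constructor
        · exact fun h => h.2
        · intro h
          exact ⟨hlt v h, h⟩
      omega
    · simp only [Nat.beq_eq, hv5, if_false]
      rw [card_special h5 σ i v (by omega)]
      simp [List.elem_eq_contains, hX]
end group

lemma kap_lt_three {n : ℕ} (x : Fin n) : kap x < 3 ↔ x.val < 3 := by
  unfold kap; omega

/-- number of mark patterns for which the coalition wins, for a fixed seeding -/
lemma count_marks {n d : ℕ} (h5 : 5 ≤ n) (σ : Fin d × Fin d ≃ Fin n) :
    ∑ m : Fin d → Fin d, (univ.filter (fun m0 : Fin d =>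
      (nodeLabel (tourT n) (fun i => nodeLabel (tourT n) (fun j => σ (i, j)) (m i)) m0).val < 3)).card
    = sumY d ((List.range d).map
        (specials (List.ofFn (fun s => ((σ.symm (spec h5 s)).1 : ℕ))))) psi := by
  have hmap : (List.range d).map
        (specials (List.ofFn (fun s => ((σ.symm (spec h5 s)).1 : ℕ))))
      = List.ofFn (fun i : Fin d =>
          specials (List.ofFn (fun s => ((σ.symm (spec h5 s)).1 : ℕ))) i.val) := by
    apply List.ext_getElem
    · simp
    · intro i h1 h2
      simp
  rw [hmap, ← sumY_eq d d (fun i a => nodeC (fun j => kap (σ (i, j))) a) _ _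
    (fun i v hv => card_group h5 σ i v hv)]
  · apply Finset.sum_congr rfl
    intro m _
    rw [← psi_eq]
    congr 1
    ext m0
    simp only [mem_filter, mem_univ, true_and]
    rw [← kap_lt_three, kap_nodeLabel]
    simp only [kap_nodeLabel]
  · intro i a
    rw [← kap_nodeLabel]
    exact kap_lt_six _

/-- the inner nodes of the tree of height 2 and their marks -/
def marksEquiv (d : ℕ) : (Inner d 2 → Fin d) ≃ (Fin d → Fin d) × Fin d where
  toFun μ := (fun i => μ (some (i, none)), μ none)
  invFun p := fun v => match v with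
    | none => p.2
    | some (i, none) => p.1 i
    | some (_, some (_, e)) => e.elim
  left_inv μ := by
    funext v
    match v with
    | none => rfl
    | some (i, none) => rfl
    | some (_, some (_, e)) => exact e.elim
  right_inv p := by
    rfl

/-- the leaves of the tree of height 2 -/
def leafEquiv (d : ℕ) : Leaf d 2 ≃ Fin d × Fin d where
  toFun l := (l.1, l.2.1)
  invFun p := (p.1, (p.2, ()))
  left_inv _ := rfl
  right_inv _ := rfl

lemma rootLabel_two {N : Type} {d : ℕ} (T : Tournament N) (σ : Leaf d 2 → N)
    (μ : Inner d 2 → Fin d) :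
    rootLabel T d 2 σ μ = nodeLabel T
      (fun i => nodeLabel T (fun j => σ (i, (j, ()))) (μ (some (i, none)))) (μ none) := rfl

open Classical in
/-- winProbSet as a quotient of two numbers of outcomes -/
lemma winProbSet_eq (d h : ℕ) (T : Tournament (Fin (d ^ h))) (S : Finset (Fin (d ^ h))) :
    winProbSet d h T S =
      (Fintype.card {p : (Leaf d h ≃ Fin (d ^ h)) × (Inner d h → Fin d) //
        rootLabel T d h p.1 p.2 ∈ S} : ℝ) /
      (Fintype.card ((Leaf d h ≃ Fin (d ^ h)) × (Inner d h → Fin d)) : ℝ) := by
  unfold winProbSet winProb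
  rw [← Finset.sum_div]
  congr 1
  rw [← Nat.cast_sum]
  congr 1
  rw [Fintype.card_subtype, Finset.card_eq_sum_card_fiberwise
    (f := fun p => rootLabel T d h p.1 p.2) (t := S) (fun p hp => by simpa using hp)]
  apply Finset.sum_congr rfl
  intro x hx
  rw [Fintype.card_subtype]
  congr 1
  ext p
  simp only [mem_filter, mem_univ, true_and]
  constructor
  · intro h; exact ⟨h ▸ hx, h⟩
  · exact fun h => h.2

/-- total count for `h = 2` -/
lemma winProbSet_two {d : ℕ} (h5 : 5 ≤ d ^ 2) (S : Finset (Fin (d ^ 2)))
    (hS : ∀ x, x ∈ S ↔ x.val < 3) :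
    winProbSet d 2 (tourT (d ^ 2)) S =
      (total d : ℝ) / (((d ^ 2).descFactorial 5 * d ^ (d + 1) : ℕ) : ℝ) := by
  classical
  rw [winProbSet_eq]
  let e : (Fin (d ^ 2)) ≃ Fin d × Fin d :=
    (Fintype.equivFinOfCardEq (by simp [sq])).symm
  obtain ⟨c, hc, hsum⟩ := sum_equiv_eq (spec h5) e
  -- denominators
  have hden : Fintype.card ((Leaf d 2 ≃ Fin (d ^ 2)) × (Inner d 2 → Fin d))
      = c * ((d ^ 2).descFactorial 5 * d ^ (d + 1)) := by
    rw [Fintype.card_prod, Fintype.card_congr (marksEquiv d), Fintype.card_prod]
    have h1 : Fintype.card (Leaf d 2 ≃ Fin (d ^ 2)) = Fintype.card (Fin (d ^ 2) ≃ Fin d × Fin d) :=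
      Fintype.card_congr
        { toFun := fun σ => σ.symm.trans (leafEquiv d)
          invFun := fun τ => (τ.trans (leafEquiv d).symm).symm
          left_inv := fun σ => by ext; simp
          right_inv := fun τ => by ext x <;> simp }
    have h2 := hsum (fun _ => 1)
    simp only [Finset.sum_const, smul_eq_mul, mul_one, Finset.card_univ] at h2
    rw [h1, h2, Fintype.card_embedding_eq]
    simp only [Fintype.card_fin, Fintype.card_prod, Fintype.card_fun]
    rw [← sq, pow_succ]
    ring
  have hnum : Fintype.card {p : (Leaf d 2 ≃ Fin (d ^ 2)) × (Inner d 2 → Fin d) //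
        rootLabel (tourT (d ^ 2)) d 2 p.1 p.2 ∈ S} = c * total d := by
    rw [Fintype.card_subtype, Finset.card_filter]
    rw [Fintype.sum_prod_type]
    have h3 : ∀ σ : Leaf d 2 ≃ Fin (d ^ 2),
        ∑ μ : Inner d 2 → Fin d, (if rootLabel (tourT (d ^ 2)) d 2 σ μ ∈ S then 1 else 0)
        = sumY d ((List.range d).map (specials (List.ofFn
            (fun s => (((σ.symm.trans (leafEquiv d)) (spec h5 s)).1 : ℕ))))) psi := by
      intro σ
      have := count_marks h5 ((leafEquiv d).symm.trans σ)
      simp only [Equiv.symm_trans_apply, Equiv.symm_symm] at this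
      simp only [Equiv.trans_apply]
      rw [← this, ← (marksEquiv d).symm.sum_comp, Fintype.sum_prod_type]
      apply Finset.sum_congr rfl
      intro m _
      rw [Finset.card_filter]
      apply Finset.sum_congr rfl
      intro m0 _
      rw [rootLabel_two]
      simp only [hS]
      rfl
    rw [Finset.sum_congr rfl (fun σ _ => h3 σ)]
    let E : (Leaf d 2 ≃ Fin (d ^ 2)) ≃ (Fin (d ^ 2) ≃ Fin d × Fin d) :=
        { toFun := fun σ => σ.symm.trans (leafEquiv d)
          invFun := fun τ => (τ.trans (leafEquiv d).symm).symm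
          left_inv := fun σ => by ext; simp
          right_inv := fun τ => by ext x <;> simp }
    have h4 := E.sum_comp (fun τ => sumY d ((List.range d).map (specials (List.ofFn
            (fun s => ((τ (spec h5 s)).1 : ℕ))))) psi)
    have h5' := hsum (fun p => sumY d ((List.range d).map (specials (List.ofFn
            (fun s => ((p s).1 : ℕ))))) psi)
    have h6 := sum_emb (d := d) (k := 5) (fun g => sumY d ((List.range d).map (specials (List.ofFn
            (fun s => (g s : ℕ))))) psi)
    have h7 : ∑ g : Fin 5 → Fin d, W 5 g * sumY d ((List.range d).map (specials (List.ofFn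
            (fun s => (g s : ℕ))))) psi = total d := by
      unfold total
      rw [sumG_eq]
      apply Finset.sum_congr rfl
      intro g _
      rw [pmul_eq, W_eq]
    rw [← h7, ← h6, ← h5']
    exact h4
  rw [hden, hnum]
  push_cast
  rw [mul_div_mul_left]
  exact_mod_cast hc.ne'

lemma card_leaf (d h : ℕ) : Fintype.card (Leaf d h) = d ^ h := by
  induction h with
  | zero => rfl
  | succ h ih =>
    have : Fintype.card (Leaf d (h + 1)) = Fintype.card (Fin d × Leaf d h) := rfl
    rw [this, Fintype.card_prod, ih, Fintype.card_fin, pow_succ, mul_comm]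

lemma outcomes_pos (d h : ℕ) (hd : 0 < d) :
    0 < Fintype.card ((Leaf d h ≃ Fin (d ^ h)) × (Inner d h → Fin d)) := by
  rw [Fintype.card_pos_iff]
  exact ⟨Fintype.equivFinOfCardEq (card_leaf d h), fun _ => ⟨0, hd⟩⟩

lemma rootLabel_condorcet {N : Type} (T : Tournament N) (x : N)
    (hx : ∀ y, y ≠ x → T.beats x y) (d h : ℕ) (σ : Leaf d h → N) (μ : Inner d h → Fin d)
    (hσ : ∃ l, σ l = x) : rootLabel T d h σ μ = x := by
  induction h with
  | zero =>
    obtain ⟨l, hl⟩ := hσ
    exact hl
  | succ h ih =>
    obtain ⟨⟨i, l⟩, hl⟩ := hσ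
    show nodeLabel T _ _ = x
    apply nodeLabel_of_condorcet
    refine ⟨⟨i, ih _ _ ⟨l, hl⟩⟩, fun y _ hy => hx y hy⟩

/-- Condorcet consistency for coalitions -/
lemma winProbSet_top {d h : ℕ} (hd : 0 < d) (T : Tournament (Fin (d ^ h)))
    (S : Finset (Fin (d ^ h))) (x : Fin (d ^ h)) (hxS : x ∈ S)
    (hx : ∀ y, y ≠ x → T.beats x y) : winProbSet d h T S = 1 := by
  classical
  rw [winProbSet_eq]
  have : Fintype.card {p : (Leaf d h ≃ Fin (d ^ h)) × (Inner d h → Fin d) //
        rootLabel T d h p.1 p.2 ∈ S}
      = Fintype.card ((Leaf d h ≃ Fin (d ^ h)) × (Inner d h → Fin d)) := by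
    rw [Fintype.card_subtype, Finset.filter_true_of_mem]
    · rfl
    · intro p _
      rw [rootLabel_condorcet T x hx d h p.1 p.2 ⟨p.1.symm x, by simp⟩]
      exact hxS
  rw [this]
  exact div_self (by exact_mod_cast (outcomes_pos d h hd).ne')

lemma winProbSet_nonneg (d h : ℕ) (T : Tournament (Fin (d ^ h)))
    (S : Finset (Fin (d ^ h))) : 0 ≤ winProbSet d h T S := by
  classical
  rw [winProbSet_eq]
  positivity

lemma winProbSet_le_one (d h : ℕ) (T : Tournament (Fin (d ^ h)))
    (S : Finset (Fin (d ^ h))) : winProbSet d h T S ≤ 1 := by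
  classical
  rw [winProbSet_eq]
  apply div_le_one_of_le₀
  · exact_mod_cast Fintype.card_subtype_le _
  · positivity

lemma le_alpha {d k h : ℕ} (hh : 1 ≤ h) (T T' : Tournament (Fin (d ^ h)))
    (S : Finset (Fin (d ^ h))) (hS : S.card ≤ k) (hadj : Adjacent S T T') :
    winProbSet d h T' S - winProbSet d h T S ≤ alpha d k := by
  unfold alpha
  apply le_csSup
  · refine ⟨1, ?_⟩
    rintro g ⟨h, _, T, T', S, _, _, rfl⟩
    have := winProbSet_nonneg d h T S
    have := winProbSet_le_one d h T' S
    linarith
  · exact ⟨h, hh, T, T', S, hS, hadj, rfl⟩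

/-! ### `h = 1` -/

/-- the tournament used for `h = 1` -/
def tourOne (n : ℕ) : Tournament (Fin n) where
  beats x y := (x.val = 0 ∧ 2 ≤ y.val) ∨ (x.val = 1 ∧ (y.val = 0 ∨ 3 ≤ y.val)) ∨
    (x.val = 2 ∧ (y.val = 1 ∨ 3 ≤ y.val)) ∨ (3 ≤ x.val ∧ x.val < y.val)
  irrefl x := by omega
  oriented x y hxy := by
    have h2 : x.val ≠ y.val := fun h => hxy (Fin.ext h)
    omega

/-- the marks of the tree of height 1 -/
def marksEquivOne (d : ℕ) : (Inner d 1 → Fin d) ≃ Fin d where
  toFun μ := μ none
  invFun m := fun v => match v with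
    | none => m
    | some (_, e) => e.elim
  left_inv μ := by
    funext v
    match v with
    | none => rfl
    | some (_, e) => exact e.elim
  right_inv _ := rfl

/-- the leaves of the tree of height 1 -/
def leafEquivOne (d : ℕ) : Leaf d 1 ≃ Fin d where
  toFun l := l.1
  invFun i := (i, ())
  left_inv _ := rfl
  right_inv _ := rfl

lemma winProbSet_one {d : ℕ} (T : Tournament (Fin (d ^ 1)))
    (hT : ∀ x, ∃ y, y ≠ x ∧ ¬ T.beats x y)
    (S : Finset (Fin (d ^ 1))) : winProbSet d 1 T S = (S.card : ℝ) / d := by
  classical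
  rw [winProbSet_eq]
  have hE : 0 < Fintype.card (Leaf d 1 ≃ Fin (d ^ 1)) := by
    rw [Fintype.card_pos_iff]
    exact ⟨Fintype.equivFinOfCardEq (card_leaf d 1)⟩
  have hden : Fintype.card ((Leaf d 1 ≃ Fin (d ^ 1)) × (Inner d 1 → Fin d))
      = Fintype.card (Leaf d 1 ≃ Fin (d ^ 1)) * d := by
    rw [Fintype.card_prod, Fintype.card_congr (marksEquivOne d), Fintype.card_fin]
  have hnum : Fintype.card {p : (Leaf d 1 ≃ Fin (d ^ 1)) × (Inner d 1 → Fin d) //
        rootLabel T d 1 p.1 p.2 ∈ S} = Fintype.card (Leaf d 1 ≃ Fin (d ^ 1)) * S.card := by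
    rw [Fintype.card_subtype, Finset.card_filter, Fintype.sum_prod_type]
    have h3 : ∀ σ : Leaf d 1 ≃ Fin (d ^ 1),
        ∑ μ : Inner d 1 → Fin d, (if rootLabel T d 1 σ μ ∈ S then 1 else 0) = S.card := by
      intro σ
      rw [← (marksEquivOne d).symm.sum_comp]
      set τ : Fin d ≃ Fin (d ^ 1) := (leafEquivOne d).symm.trans σ with hτ
      have h4 : ∀ m : Fin d, rootLabel T d 1 σ ((marksEquivOne d).symm m) = τ m := by
        intro m
        have : rootLabel T d 1 σ ((marksEquivOne d).symm m)
            = nodeLabel T τ m := rfl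
        rw [this]
        apply nodeLabel_of_not
        rintro ⟨x, hx⟩
        obtain ⟨y, hy1, hy2⟩ := hT x
        apply hy2
        apply hx.2 y _ hy1
        exact τ.surjective y
      simp only [h4]
      rw [← Finset.card_filter]
      refine Finset.card_bij' (fun m _ => τ m) (fun x _ => τ.symm x) ?_ ?_ ?_ ?_
      · intro m hm; simpa using hm
      · intro x hx
        simp only [mem_filter, mem_univ, true_and, Equiv.apply_symm_apply]
        exact hx
      · intro m hm; simp
      · intro x hx; simp
    rw [Finset.sum_congr rfl (fun σ _ => h3 σ), Finset.sum_const, smul_eq_mul]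
    rfl
  rw [hden, hnum]
  push_cast
  rw [mul_div_mul_left]
  exact_mod_cast hE.ne'

lemma alpha_ge_of_five_le {d k : ℕ} (hd : 5 ≤ d) (hk : 2 ≤ k) : 3 / 5 ≤ alpha d k := by
  have hdd : d ^ 1 = d := pow_one d
  let a : Fin (d ^ 1) := ⟨0, by omega⟩
  let b : Fin (d ^ 1) := ⟨1, by omega⟩
  let z : Fin (d ^ 1) := ⟨2, by omega⟩
  have hab : a ≠ b := by simp [a, b]
  let S : Finset (Fin (d ^ 1)) := {a, b}
  have hScard : S.card = 2 := Finset.card_pair hab
  have hmem : ∀ x, x ∈ S ↔ x.val < 2 := by
    intro x
    simp only [S, Finset.mem_insert, Finset.mem_singleton, a, b, Fin.ext_iff]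
    omega
  have hadj : Adjacent S (tourOne (d ^ 1)) (mkTop (tourOne (d ^ 1))) := by
    intro x y hxy
    rw [hmem, hmem] at hxy
    simp only [tourOne, mkTop]
    omega
  have h1 := le_alpha (k := k) (le_refl 1) _ _ S (by omega) hadj
  rw [winProbSet_top (by omega) _ S a (by rw [hmem]; exact Nat.zero_lt_succ 1) (by
    intro y hy
    left
    exact ⟨rfl, fun h => hy (Fin.ext h)⟩),
    winProbSet_one _ (by
      intro x
      by_cases h0 : x.val = 0
      · refine ⟨b, ?_, ?_⟩
        · intro h; rw [← h] at h0; exact absurd h0 (by simp [b])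
        · simp only [tourOne, b]; omega
      · by_cases h1 : x.val = 1
        · refine ⟨z, ?_, ?_⟩
          · intro h; rw [← h] at h1; exact absurd h1 (by simp [z])
          · simp only [tourOne, z]; omega
        · refine ⟨a, ?_, ?_⟩
          · intro h; rw [← h] at h0; exact absurd rfl h0
          · simp only [tourOne, a]; omega), hScard] at h1
  have hd' : (5 : ℝ) ≤ d := by exact_mod_cast hd
  have h2 : (2 : ℝ) / d ≤ 2 / 5 := by
    apply div_le_div_of_nonneg_left <;> linarith
  push_cast at h1
  linarith

/-! ### `h = 2` -/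

lemma alpha_ge_two {d k : ℕ} (hd : 3 ≤ d) (hk : 3 ≤ k) :
    1 - (total d : ℝ) / (((d ^ 2).descFactorial 5 * d ^ (d + 1) : ℕ) : ℝ) ≤ alpha d k := by
  have h9 : 9 ≤ d ^ 2 := by nlinarith
  let S : Finset (Fin (d ^ 2)) := univ.filter (fun x => x.val < 3)
  have hmem : ∀ x, x ∈ S ↔ x.val < 3 := by
    intro x; simp [S]
  have hScard : S.card = 3 := by
    have : S = Finset.univ.map ⟨fun i : Fin 3 => (⟨i.val, by omega⟩ : Fin (d ^ 2)), by
        intro i j hij
        simp only [Fin.mk.injEq] at hij
        exact Fin.ext hij⟩ := by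
      ext x
      rw [hmem]
      simp only [Finset.mem_map, Finset.mem_univ, true_and]
      constructor
      · intro h; exact ⟨⟨x.val, h⟩, rfl⟩
      · rintro ⟨i, rfl⟩; exact i.isLt
    rw [this, Finset.card_map]; simp
  let a : Fin (d ^ 2) := ⟨0, by omega⟩
  have hadj : Adjacent S (tourT (d ^ 2)) (mkTop (tourT (d ^ 2))) := by
    intro x y hxy
    rw [hmem, hmem] at hxy
    simp only [tourT, mkTop]
    by_cases hx : x.val = 0
    · have hy : 3 ≤ y.val := by omega
      have : bt x.val y.val = true := by
        rw [hx]
        by_cases h5 : 5 ≤ y.val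
        · exact bt_weak (by omega) h5
        · have h6 : y.val < 5 := by omega
          interval_cases y.val <;> decide
      simp [hx]
      rw [hx] at this
      simp [this]
      omega
    · by_cases hy : y.val = 0
      · have hx3 : 3 ≤ x.val := by omega
        have : bt x.val y.val = false := by
          rw [hy]
          by_cases h5 : 5 ≤ x.val
          · unfold bt; simp [h5]
          · have h6 : x.val < 5 := by omega
            interval_cases x.val <;> decide
        simp [hx, hy]
        rw [hy] at this
        simp [this]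
      · simp [hx, hy]
  have h1 := le_alpha (k := k) (by norm_num : 1 ≤ 2) _ _ S (by omega) hadj
  rw [winProbSet_top (by omega) _ S a (by rw [hmem]; exact Nat.zero_lt_succ 2) (by
    intro y hy
    left
    exact ⟨rfl, fun h => hy (Fin.ext h)⟩), winProbSet_two (by omega) S hmem] at h1
  exact h1

set_option maxRecDepth 100000 in
theorem total_three : total 3 = 562788 := by decide +kernel

set_option maxRecDepth 100000 in
theorem total_four : total 4 = 227082240 := by decide +kernel

/-- **The answer to Q1 is yes**: `α_{d,k} ≥ 227/420` for all integers `3 ≤ k ≤ d`. -/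
theorem result : ∀ k d : ℕ, 3 ≤ k → k ≤ d → (227 / 420 : ℝ) ≤ alpha d k := by
  intro k d hk hkd
  have hd : 3 ≤ d := le_trans hk hkd
  by_cases h5 : 5 ≤ d
  · have := alpha_ge_of_five_le h5 (by omega : 2 ≤ k)
    linarith
  · have : d = 3 ∨ d = 4 := by omega
    have h2 := alpha_ge_two hd hk
    rcases this with rfl | rfl
    · rw [total_three] at h2
      norm_num [Nat.descFactorial] at h2
      linarith
    · rw [total_four] at h2
      norm_num [Nat.descFactorial] at h2
      linarith

end Pool.Agent.Results.MP_5ab447_lc.AlphaLowerBound
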